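import Mathlib

namespace Pool.Agent.Results.MP_0955de_an.NoCycle

/-- The set `A_a` of the integer points other than the origin on the circle
`x^2 - a x + y^2 + a y = 0`. -/
def A (a : ℝ) : Set (ℤ × ℤ) :=
  {v | (v.1 : ℝ) ^ 2 - a * v.1 + (v.2 : ℝ) ^ 2 + a * v.2 = 0 ∧ v ≠ (0, 0)}

/-- The graph `G(a₁, a₂)` with vertex set `A_{a₁} ∪ A_{a₂}`; two distinct vertices are adjacent
when they have the same first coordinate or the same second coordinate. -/
def G (a₁ a₂ : ℝ) : SimpleGraph ↥(A a₁ ∪ A a₂) where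
  Adj u v := u ≠ v ∧ (u.1.1 = v.1.1 ∨ u.1.2 = v.1.2)
  symm := ⟨fun u v h => ⟨h.1.symm, h.2.imp Eq.symm Eq.symm⟩⟩
  loopless := ⟨fun u h => h.1 rfl⟩

/-- The graph `G(a₁, a₂)` has a cycle: a closed path through at least three distinct
vertices. -/
def HasCycle (a₁ a₂ : ℝ) : Prop := ∃ (v : ↥(A a₁ ∪ A a₂)) (c : (G a₁ a₂).Walk v v), c.IsCycle

lemma fst_inj {a : ℝ} (ha : ∀ n : ℤ, a ≠ n) {u v : ℤ × ℤ} (hu : u ∈ A a) (hv : v ∈ A a)
    (h : u.1 = v.1) : u = v := by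
  have h1 := hu.1
  have h2 := hv.1
  rw [h] at h1
  have h3 : ((u.2 : ℝ) - v.2) * (u.2 + v.2 + a) = 0 := by linear_combination h1 - h2
  rcases mul_eq_zero.mp h3 with h4 | h4
  · exact Prod.ext h (by exact_mod_cast sub_eq_zero.mp h4)
  · exact absurd (show a = ((-u.2 - v.2 : ℤ) : ℝ) by push_cast; linarith) (ha _)

lemma snd_inj {a : ℝ} (ha : ∀ n : ℤ, a ≠ n) {u v : ℤ × ℤ} (hu : u ∈ A a) (hv : v ∈ A a)
    (h : u.2 = v.2) : u = v := by
  have h1 := hu.1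
  have h2 := hv.1
  rw [h] at h1
  have h3 : ((u.1 : ℝ) - v.1) * (u.1 + v.1 - a) = 0 := by linear_combination h1 - h2
  rcases mul_eq_zero.mp h3 with h4 | h4
  · exact Prod.ext (by exact_mod_cast sub_eq_zero.mp h4) h
  · exact absurd (show a = ((u.1 + v.1 : ℤ) : ℝ) by push_cast; linarith) (ha _)

/-- No cycle: the finite version.  There is no nonempty finite set `K` of vertices such that
every element of `K` has another element of `K` with the same first coordinate and another one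
with the same second coordinate. -/
lemma no_finite {a₁ a₂ : ℝ} (h₁ : ∀ n : ℤ, a₁ ≠ n) (h₂ : ∀ n : ℤ, a₂ ≠ n) (hne : a₁ ≠ a₂)
    (K : Finset (ℤ × ℤ)) (hK : ∀ v ∈ K, v ∈ A a₁ ∪ A a₂) (v₀ : ℤ × ℤ) (hv₀ : v₀ ∈ K)
    (hx : ∀ v ∈ K, ∃ w ∈ K, w ≠ v ∧ w.1 = v.1) (hy : ∀ v ∈ K, ∃ w ∈ K, w ≠ v ∧ w.2 = v.2) :
    False := by
  classical
  set U := K.filter (fun v => v ∈ A a₁) with hU
  set W := K.filter (fun v => v ∈ A a₂) with hW
  have mU : ∀ v, v ∈ U ↔ v ∈ K ∧ v ∈ A a₁ := fun v => by rw [hU, Finset.mem_filter]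
  have mW : ∀ v, v ∈ W ↔ v ∈ K ∧ v ∈ A a₂ := fun v => by rw [hW, Finset.mem_filter]
  have ix : U.image Prod.fst = W.image Prod.fst := by
    ext t
    simp only [Finset.mem_image]
    constructor
    · rintro ⟨v, hv, rfl⟩
      obtain ⟨w, hw, hwv, hwx⟩ := hx v ((mU v).mp hv).1
      refine ⟨w, (mW w).mpr ⟨hw, ?_⟩, hwx⟩
      rcases hK w hw with h | h
      · exact absurd (fst_inj h₁ h ((mU v).mp hv).2 hwx) hwv
      · exact h
    · rintro ⟨v, hv, rfl⟩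
      obtain ⟨w, hw, hwv, hwx⟩ := hx v ((mW v).mp hv).1
      refine ⟨w, (mU w).mpr ⟨hw, ?_⟩, hwx⟩
      rcases hK w hw with h | h
      · exact h
      · exact absurd (fst_inj h₂ h ((mW v).mp hv).2 hwx) hwv
  have iy : U.image Prod.snd = W.image Prod.snd := by
    ext t
    simp only [Finset.mem_image]
    constructor
    · rintro ⟨v, hv, rfl⟩
      obtain ⟨w, hw, hwv, hwx⟩ := hy v ((mU v).mp hv).1
      refine ⟨w, (mW w).mpr ⟨hw, ?_⟩, hwx⟩
      rcases hK w hw with h | h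
      · exact absurd (snd_inj h₁ h ((mU v).mp hv).2 hwx) hwv
      · exact h
    · rintro ⟨v, hv, rfl⟩
      obtain ⟨w, hw, hwv, hwx⟩ := hy v ((mW v).mp hv).1
      refine ⟨w, (mU w).mpr ⟨hw, ?_⟩, hwx⟩
      rcases hK w hw with h | h
      · exact h
      · exact absurd (snd_inj h₂ h ((mW v).mp hv).2 hwx) hwv
  have sx : ∀ g : ℤ → ℝ, ∑ v ∈ U, g v.1 = ∑ v ∈ W, g v.1 := by
    intro g
    rw [← Finset.sum_image (f := g) (g := Prod.fst) (s := U) (fun u hu v hv h =>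
      fst_inj h₁ ((mU u).mp hu).2 ((mU v).mp hv).2 h), ix,
      Finset.sum_image (fun u hu v hv h =>
      fst_inj h₂ ((mW u).mp hu).2 ((mW v).mp hv).2 h)]
  have sy : ∀ g : ℤ → ℝ, ∑ v ∈ U, g v.2 = ∑ v ∈ W, g v.2 := by
    intro g
    rw [← Finset.sum_image (f := g) (g := Prod.snd) (s := U) (fun u hu v hv h =>
      snd_inj h₁ ((mU u).mp hu).2 ((mU v).mp hv).2 h), iy,
      Finset.sum_image (fun u hu v hv h =>
      snd_inj h₂ ((mW u).mp hu).2 ((mW v).mp hv).2 h)]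
  have e1 : ∑ v ∈ U, (v.1 : ℝ) ^ 2 + ∑ v ∈ U, (v.2 : ℝ) ^ 2 =
      a₁ * (∑ v ∈ U, (v.1 : ℝ) - ∑ v ∈ U, (v.2 : ℝ)) := by
    rw [← Finset.sum_add_distrib, ← Finset.sum_sub_distrib, Finset.mul_sum]
    refine Finset.sum_congr rfl fun v hv => ?_
    have := ((mU v).mp hv).2.1
    linarith
  have e2 : ∑ v ∈ W, (v.1 : ℝ) ^ 2 + ∑ v ∈ W, (v.2 : ℝ) ^ 2 =
      a₂ * (∑ v ∈ W, (v.1 : ℝ) - ∑ v ∈ W, (v.2 : ℝ)) := by
    rw [← Finset.sum_add_distrib, ← Finset.sum_sub_distrib, Finset.mul_sum]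
    refine Finset.sum_congr rfl fun v hv => ?_
    have := ((mW v).mp hv).2.1
    linarith
  rw [sx (fun t => (t : ℝ) ^ 2), sy (fun t => (t : ℝ) ^ 2), sx (fun t => (t : ℝ)),
    sy (fun t => (t : ℝ))] at e1
  have e3 : (a₁ - a₂) * (∑ v ∈ W, (v.1 : ℝ) - ∑ v ∈ W, (v.2 : ℝ)) = 0 := by linarith
  have e4 := (mul_eq_zero.mp e3).resolve_left (sub_ne_zero.mpr hne)
  rw [e4, mul_zero, ← Finset.sum_add_distrib] at e2
  have e5 := (Finset.sum_eq_zero_iff_of_nonneg (fun v _ => by positivity)).mp e2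
  -- `W` is nonempty
  obtain ⟨w, hw⟩ : ∃ w, w ∈ W := by
    rcases hK v₀ hv₀ with h | h
    · have h6 : v₀.1 ∈ U.image Prod.fst := Finset.mem_image_of_mem _ ((mU v₀).mpr ⟨hv₀, h⟩)
      rw [ix] at h6
      obtain ⟨w, hw, -⟩ := Finset.mem_image.mp h6
      exact ⟨w, hw⟩
    · exact ⟨v₀, (mW v₀).mpr ⟨hv₀, h⟩⟩
  have e6 := e5 w hw
  have h1 : (w.1 : ℝ) = 0 := by nlinarith [sq_nonneg (w.1 : ℝ), sq_nonneg (w.2 : ℝ)]
  have h2 : (w.2 : ℝ) = 0 := by nlinarith [sq_nonneg (w.1 : ℝ), sq_nonneg (w.2 : ℝ)]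
  exact ((mW w).mp hw).2.2 (Prod.ext (by exact_mod_cast h1) (by exact_mod_cast h2))

/-- For all distinct non-integer real numbers `a₁`, `a₂` (in particular for all distinct
non-integer rational numbers), the graph `G(a₁, a₂)` has no cycle. -/
theorem result (a₁ a₂ : ℝ) (h₁ : ∀ n : ℤ, a₁ ≠ n) (h₂ : ∀ n : ℤ, a₂ ≠ n) (hne : a₁ ≠ a₂) :
    ¬ HasCycle a₁ a₂ := by
  classical
  rintro ⟨v, c, hc⟩
  -- at most one other vertex on each vertical line and on each horizontal line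
  have ux : ∀ u w w' : ↥(A a₁ ∪ A a₂), w ≠ u → w' ≠ u → w.1.1 = u.1.1 → w'.1.1 = u.1.1 →
      w = w' := by
    intro u w w' h3 h4 h5 h6
    by_contra h7
    rcases u.2 with hu | hu <;> rcases w.2 with hw | hw <;> rcases w'.2 with hw' | hw'
    · exact h3 (Subtype.ext (fst_inj h₁ hw hu h5))
    · exact h3 (Subtype.ext (fst_inj h₁ hw hu h5))
    · exact h4 (Subtype.ext (fst_inj h₁ hw' hu h6))
    · exact h7 (Subtype.ext (fst_inj h₂ hw hw' (h5.trans h6.symm)))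
    · exact h7 (Subtype.ext (fst_inj h₁ hw hw' (h5.trans h6.symm)))
    · exact h4 (Subtype.ext (fst_inj h₂ hw' hu h6))
    · exact h3 (Subtype.ext (fst_inj h₂ hw hu h5))
    · exact h3 (Subtype.ext (fst_inj h₂ hw hu h5))
  have uy : ∀ u w w' : ↥(A a₁ ∪ A a₂), w ≠ u → w' ≠ u → w.1.2 = u.1.2 → w'.1.2 = u.1.2 →
      w = w' := by
    intro u w w' h3 h4 h5 h6
    by_contra h7
    rcases u.2 with hu | hu <;> rcases w.2 with hw | hw <;> rcases w'.2 with hw' | hw'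
    · exact h3 (Subtype.ext (snd_inj h₁ hw hu h5))
    · exact h3 (Subtype.ext (snd_inj h₁ hw hu h5))
    · exact h4 (Subtype.ext (snd_inj h₁ hw' hu h6))
    · exact h7 (Subtype.ext (snd_inj h₂ hw hw' (h5.trans h6.symm)))
    · exact h7 (Subtype.ext (snd_inj h₁ hw hw' (h5.trans h6.symm)))
    · exact h4 (Subtype.ext (snd_inj h₂ hw' hu h6))
    · exact h3 (Subtype.ext (snd_inj h₂ hw hu h5))
    · exact h3 (Subtype.ext (snd_inj h₂ hw hu h5))
  have key : ∀ u ∈ c.support, ∃ w ∈ c.support, ∃ w' ∈ c.support, w ≠ u ∧ w' ≠ u ∧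
      w.1.1 = u.1.1 ∧ w'.1.2 = u.1.2 := by
    intro u hu
    have h3 := hc.ncard_neighborSet_toSubgraph_eq_two hu
    obtain ⟨w, w', hww, hset⟩ := Set.ncard_eq_two.mp h3
    have hw : c.toSubgraph.Adj u w := by
      have : w ∈ c.toSubgraph.neighborSet u := by rw [hset]; simp
      exact this
    have hw' : c.toSubgraph.Adj u w' := by
      have : w' ∈ c.toSubgraph.neighborSet u := by rw [hset]; simp
      exact this
    have sw : w ∈ c.support := (SimpleGraph.Walk.mem_verts_toSubgraph c).mp hw.snd_mem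
    have sw' : w' ∈ c.support := (SimpleGraph.Walk.mem_verts_toSubgraph c).mp hw'.snd_mem
    have aw : (G a₁ a₂).Adj u w := hw.adj_sub
    have aw' : (G a₁ a₂).Adj u w' := hw'.adj_sub
    rcases aw.2 with h4 | h4 <;> rcases aw'.2 with h5 | h5
    · exact absurd (ux u w w' aw.1.symm aw'.1.symm h4.symm h5.symm) hww
    · exact ⟨w, sw, w', sw', aw.1.symm, aw'.1.symm, h4.symm, h5.symm⟩
    · exact ⟨w', sw', w, sw, aw'.1.symm, aw.1.symm, h5.symm, h4.symm⟩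
    · exact absurd (uy u w w' aw.1.symm aw'.1.symm h4.symm h5.symm) hww
  refine no_finite h₁ h₂ hne (c.support.toFinset.image Subtype.val) ?_ v.1 ?_ ?_ ?_
  · intro u hu
    obtain ⟨u', -, rfl⟩ := Finset.mem_image.mp hu
    exact u'.2
  · exact Finset.mem_image_of_mem _ (by simp)
  · intro u hu
    obtain ⟨u', hu', rfl⟩ := Finset.mem_image.mp hu
    obtain ⟨w, hw, w', hw', h3, h4, h5, h6⟩ := key u' (List.mem_toFinset.mp hu')
    exact ⟨w.1, Finset.mem_image_of_mem _ (List.mem_toFinset.mpr hw),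
      fun h => h3 (Subtype.ext h), h5⟩
  · intro u hu
    obtain ⟨u', hu', rfl⟩ := Finset.mem_image.mp hu
    obtain ⟨w, hw, w', hw', h3, h4, h5, h6⟩ := key u' (List.mem_toFinset.mp hu')
    exact ⟨w'.1, Finset.mem_image_of_mem _ (List.mem_toFinset.mpr hw'),
      fun h => h4 (Subtype.ext h), h6⟩

end Pool.Agent.Results.MP_0955de_an.NoCycle
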